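import Mathlib

/-!
# The refined topology of eventually different functions on a product of finite sets

Used for `∏ C_n^*` is not a countable union of Borel null-finite sets.
-/

set_option linter.style.haveILetI false
set_option linter.unusedSectionVars false

open Set Filter Topology

namespace Pool.Agent.X218.NF

variable {G : ℕ → Type} [∀ n, Finite (G n)]

/-- The product, as a type carrying the refined topology. -/
def Y (G : ℕ → Type) : Type := ∀ n, G n

/-- Basic sets. -/
def bas (x : Y G) (m : ℕ) (F : Finset (Y G)) : Set (Y G) :=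
  {y | (∀ n < m, y n = x n) ∧ ∀ n, m ≤ n → ∀ z ∈ F, y n ≠ z n}

/-- Admissible pairs. -/
def good (m : ℕ) (F : Finset (Y G)) : Prop := ∀ n, m ≤ n → F.card < Nat.card (G n)

theorem self_mem_bas {x : Y G} {m : ℕ} {F : Finset (Y G)}
    (h : ∀ n, m ≤ n → ∀ z ∈ F, x n ≠ z n) : x ∈ bas x m F := ⟨fun _ _ => rfl, h⟩

theorem bas_eq_of_mem {x y : Y G} {m : ℕ} {F : Finset (Y G)} (h : y ∈ bas x m F) :
    bas y m F = bas x m F := by
  ext w
  constructor
  · rintro ⟨h1, h2⟩
    exact ⟨fun n hn => (h1 n hn).trans (h.1 n hn), h2⟩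
  · rintro ⟨h1, h2⟩
    exact ⟨fun n hn => (h1 n hn).trans (h.1 n hn).symm, h2⟩

theorem bas_mono {x : Y G} {m m' : ℕ} {F F' : Finset (Y G)} (hm : m ≤ m') (hF : F ⊆ F')
    (h : x ∈ bas x m F) : bas x m' F' ⊆ bas x m F := by
  classical
  rintro w ⟨h1, h2⟩
  refine ⟨fun n hn => h1 n (lt_of_lt_of_le hn hm), fun n hn z hz => ?_⟩
  rcases lt_or_ge n m' with h3 | h3
  · rw [h1 n h3]
    exact h.2 n hn z hz
  · exact h2 n h3 z (hF hz)

theorem good_mono {m m' : ℕ} {F F' : Finset (Y G)} (h : good m F) (hm : m ≤ m')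
    (hF : F'.card ≤ F.card) : good m' F' :=
  fun n hn => lt_of_le_of_lt hF (h n (hm.trans hn))

/-- Choice of a value avoiding few values. -/
theorem exists_avoid {n : ℕ} (S : Set (G n)) (hS : S.ncard < Nat.card (G n)) : ∃ a, a ∉ S := by
  by_contra hcon
  push Not at hcon
  have : S = univ := eq_univ_of_forall hcon
  rw [this, ncard_univ] at hS
  exact lt_irrefl _ hS

theorem bas_nonempty (x : Y G) {m : ℕ} {F : Finset (Y G)} (h : good m F) :
    (bas x m F).Nonempty := by
  classical
  have hne : ∀ n, Nonempty (G n) := fun n => ⟨x n⟩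
  have h1 : ∀ n, m ≤ n → ∃ a : G n, a ∉ ((fun z : Y G => z n) '' (F : Set (Y G))) := by
    intro n hn
    apply exists_avoid
    have h2 := ncard_image_le (f := fun z : Y G => z n) F.finite_toSet
    rw [ncard_coe_finset] at h2
    exact lt_of_le_of_lt h2 (h n hn)
  choose! a ha using h1
  refine ⟨fun n => if m ≤ n then a n else x n, fun n hn => ?_, fun n hn z hz => ?_⟩
  · simp [not_le.2 hn]
  · simp only [hn, if_true]
    intro h2
    exact ha n hn ⟨z, hz, h2.symm⟩

variable (hG : ∀ K : ℕ, ∃ N, ∀ n, N ≤ n → K < Nat.card (G n)) (hpos : ∀ n, Nonempty (G n))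

/-- The growth hypothesis, as a class so that the topology can be an instance. -/
class Growing (G : ℕ → Type) : Prop where
  /-- the cardinalities tend to infinity -/
  tends : ∀ K : ℕ, ∃ N, ∀ n, N ≤ n → K < Nat.card (G n)
  /-- all factors are nonempty -/
  pos : ∀ n, 0 < Nat.card (G n)

theorem exists_good [Growing G] (m : ℕ) (F : Finset (Y G)) : ∃ m', m ≤ m' ∧ good m' F := by
  obtain ⟨N, hN⟩ := Growing.tends (G := G) F.card
  exact ⟨max m N, le_max_left _ _, fun n hn => hN n ((le_max_right _ _).trans hn)⟩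

theorem good_empty [Growing G] (m : ℕ) : good m (∅ : Finset (Y G)) := fun n _ => by
  simpa using Growing.pos n

/-- The refined topology. -/
instance topY [Growing G] : TopologicalSpace (Y G) where
  IsOpen U := ∀ y ∈ U, ∃ (m : ℕ) (F : Finset (Y G)), good m F ∧ y ∈ bas y m F ∧ bas y m F ⊆ U
  isOpen_univ := fun y _ => ⟨0, ∅, good_empty 0, self_mem_bas (by simp), subset_univ _⟩
  isOpen_inter := by
    classical
    rintro U V hU hV y ⟨hyU, hyV⟩
    obtain ⟨m1, F1, g1, h1, s1⟩ := hU y hyU
    obtain ⟨m2, F2, g2, h2, s2⟩ := hV y hyV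
    obtain ⟨m, hm, g⟩ := exists_good (max m1 m2) (F1 ∪ F2)
    have hm1 : m1 ≤ m := (le_max_left _ _).trans hm
    have hm2 : m2 ≤ m := (le_max_right _ _).trans hm
    refine ⟨m, F1 ∪ F2, g, self_mem_bas ?_, subset_inter ?_ ?_⟩
    · intro n hn z hz
      rcases Finset.mem_union.1 hz with hz | hz
      · exact h1.2 n (hm1.trans hn) z hz
      · exact h2.2 n (hm2.trans hn) z hz
    · exact (bas_mono hm1 Finset.subset_union_left h1).trans s1
    · exact (bas_mono hm2 Finset.subset_union_right h2).trans s2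
  isOpen_sUnion := by
    intro S hS y hy
    obtain ⟨U, hU, hyU⟩ := hy
    obtain ⟨m, F, g, h, s⟩ := hS U hU y hyU
    exact ⟨m, F, g, h, s.trans (subset_sUnion_of_mem hU)⟩

variable [Growing G]

theorem isOpen_def {U : Set (Y G)} : IsOpen U ↔
    ∀ y ∈ U, ∃ (m : ℕ) (F : Finset (Y G)), good m F ∧ y ∈ bas y m F ∧ bas y m F ⊆ U := Iff.rfl

theorem isOpen_bas (x : Y G) {m : ℕ} {F : Finset (Y G)} (h : good m F) : IsOpen (bas x m F) := by
  rw [isOpen_def]
  intro y hy
  refine ⟨m, F, h, ?_, (bas_eq_of_mem hy).le⟩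
  rw [bas_eq_of_mem hy]
  exact hy

theorem isClosed_bas (x : Y G) (m : ℕ) (F : Finset (Y G)) : IsClosed (bas x m F) := by
  rw [← isOpen_compl_iff, isOpen_def]
  intro y hy
  have h1 : (∃ n < m, y n ≠ x n) ∨ ∃ n, m ≤ n ∧ ∃ z ∈ F, y n = z n := by
    by_contra hcon
    push Not at hcon
    exact hy ⟨hcon.1, hcon.2⟩
  rcases h1 with ⟨n, hn, h2⟩ | ⟨n, hn, z, hz, h2⟩
  · refine ⟨m, ∅, good_empty m, self_mem_bas (by simp), ?_⟩
    rintro w ⟨h3, -⟩ hw
    exact h2 ((h3 n hn).symm.trans (hw.1 n hn))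
  · refine ⟨n + 1, ∅, good_empty _, self_mem_bas (by simp), ?_⟩
    rintro w ⟨h3, -⟩ hw
    refine hw.2 n hn z hz ?_
    rw [h3 n (Nat.lt_succ_self n)]
    exact h2

/-- The refined topology is Baire. -/
instance : BaireSpace (Y G) := by
  constructor
  intro f ho hd
  rw [dense_iff_inter_open]
  intro U hU hne
  obtain ⟨y0, hy0⟩ := hne
  obtain ⟨m0, F0, g0, h0, s0⟩ := (isOpen_def.1 hU) y0 hy0
  -- states
  let St := {p : Y G × ℕ × Finset (Y G) // good p.2.1 p.2.2}
  let B : St → Set (Y G) := fun p => bas p.1.1 p.1.2.1 p.1.2.2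
  have step : ∀ (i : ℕ) (s : St), ∃ s' : St, B s' ⊆ B s ∧ B s' ⊆ f i ∧ s.1.2.1 < s'.1.2.1 := by
    rintro i ⟨⟨x, m, F⟩, g⟩
    obtain ⟨y, hy1, hy2⟩ := (hd i).inter_open_nonempty _ (isOpen_bas x g) (bas_nonempty x g)
    obtain ⟨m', F', g', h', s'⟩ := (isOpen_def.1 ((isOpen_bas x g).inter (ho i))) y ⟨hy1, hy2⟩
    refine ⟨⟨⟨y, max m' (m + 1), F'⟩, good_mono g' (le_max_left _ _) le_rfl⟩, ?_, ?_, ?_⟩
    · exact ((bas_mono (le_max_left _ _) (Finset.Subset.refl _) h').trans s').trans
        inter_subset_left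
    · exact ((bas_mono (le_max_left _ _) (Finset.Subset.refl _) h').trans s').trans
        inter_subset_right
    · exact lt_of_lt_of_le (Nat.lt_succ_self m) (le_max_right _ _)
  choose nx hn1 hn2 hn3 using step
  let s : ℕ → St := fun i => Nat.rec ⟨⟨y0, m0, F0⟩, g0⟩ (fun i p => nx i p) i
  have hs0 : s 0 = ⟨⟨y0, m0, F0⟩, g0⟩ := rfl
  have hs : ∀ i, s (i + 1) = nx i (s i) := fun i => rfl
  have hmono : ∀ i j, i ≤ j → B (s j) ⊆ B (s i) := by
    intro i j hij
    induction j, hij using Nat.le_induction with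
    | base => exact Subset.rfl
    | succ j _ ih => rw [hs]; exact (hn1 j (s j)).trans ih
  have hm : ∀ i, i ≤ (s i).1.2.1 := by
    intro i
    induction i with
    | zero => exact Nat.zero_le _
    | succ i ih =>
      rw [hs]
      have := hn3 i (s i)
      omega
  have hmm : ∀ i j, i ≤ j → (s i).1.2.1 ≤ (s j).1.2.1 := by
    intro i j hij
    induction j, hij using Nat.le_induction with
    | base => exact le_rfl
    | succ j _ ih => rw [hs]; have := hn3 j (s j); omega
  have hag : ∀ i j, i ≤ j → ∀ n < (s i).1.2.1, (s j).1.1 n = (s i).1.1 n := by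
    intro i j hij n hn
    obtain ⟨w, hw⟩ := bas_nonempty (s j).1.1 (s j).2
    have hw' := hmono i j hij hw
    rw [← hw.1 n (lt_of_lt_of_le hn (hmm i j hij)), ← hw'.1 n hn]
  let x : Y G := fun n => (s (n + 1)).1.1 n
  have hx : ∀ i, x ∈ B (s i) := by
    intro i
    refine ⟨fun n hn => ?_, fun n hn z hz => ?_⟩
    · rcases le_total i (n + 1) with h | h
      · exact hag i (n + 1) h n hn
      · exact (hag (n + 1) i h n (lt_of_lt_of_le (Nat.lt_succ_self n) (hm (n + 1)))).symm
    · have hin : i ≤ n + 1 := ((hm i).trans hn).trans (Nat.le_succ n)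
      obtain ⟨w, hw⟩ := bas_nonempty (s (n + 1)).1.1 (s (n + 1)).2
      have hw' := hmono i (n + 1) hin hw
      show (s (n + 1)).1.1 n ≠ z n
      rw [← hw.1 n (lt_of_lt_of_le (Nat.lt_succ_self n) (hm (n + 1)))]
      exact hw'.2 n hn z hz
  refine ⟨x, s0 (hx 0), mem_iInter.2 fun i => ?_⟩
  have := hx (i + 1)
  rw [hs] at this
  exact hn2 i (s i) this

/-- Coordinatewise action of a family of permutations. -/
def pm (σ : ∀ n, Equiv.Perm (G n)) (x : Y G) : Y G := fun n => σ n (x n)

/-- Coordinatewise permutations are continuous in the refined topology. -/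
theorem continuous_perm (σ : ∀ n, Equiv.Perm (G n)) : Continuous (pm σ) := by
  classical
  refine ⟨fun U hU => ?_⟩
  rw [isOpen_def]
  intro x hx
  obtain ⟨m, F, g, h, s⟩ := (isOpen_def.1 hU) _ hx
  refine ⟨m, F.image (pm fun n => (σ n).symm),
    good_mono g le_rfl Finset.card_image_le, self_mem_bas ?_, ?_⟩
  · intro n hn z hz
    obtain ⟨z', hz', rfl⟩ := Finset.mem_image.1 hz
    intro h1
    refine h.2 n hn z' hz' ?_
    show σ n (x n) = z' n
    rw [h1]
    exact (σ n).apply_symm_apply (z' n)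
  · rintro w ⟨h1, h2⟩
    refine s ⟨fun n hn => ?_, fun n hn z hz => ?_⟩
    · show σ n (w n) = σ n (x n)
      rw [h1 n hn]
    · intro h3
      refine h2 n hn _ (Finset.mem_image_of_mem _ hz) ?_
      show w n = (σ n).symm (z n)
      rw [← h3]
      exact ((σ n).symm_apply_apply (w n)).symm

/-- Coordinatewise permutations as homeomorphisms of the refined topology. -/
def permHomeo (σ : ∀ n, Equiv.Perm (G n)) : Y G ≃ₜ Y G where
  toFun := pm σ
  invFun := pm fun n => (σ n).symm
  left_inv x := by funext n; exact (σ n).symm_apply_apply _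
  right_inv x := by funext n; exact (σ n).apply_symm_apply _
  continuous_toFun := continuous_perm σ
  continuous_invFun := continuous_perm fun n => (σ n).symm

/-- The main lemma: a set `B` with the Baire property in the refined topology which is not meager
contains infinitely many translates of some point, for all sequences of translations tending to
the identity. -/
theorem main {B : Set (Y G)} {u : Set (Y G)} (hu : IsOpen u) (hne : u.Nonempty)
    (hB : ∀ᶠ x in residual (Y G), (x ∈ B ↔ x ∈ u)) (σ : ℕ → ∀ n, Equiv.Perm (G n))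
    (hσ : ∀ n, ∀ᶠ j in atTop, σ j n = Equiv.refl _) :
    ∃ x : Y G, {j : ℕ | pm (σ j) x ∈ B}.Infinite := by
  classical
  obtain ⟨p, hp⟩ := hne
  obtain ⟨m, F, g, hpm, hsub⟩ := (isOpen_def.1 hu) p hp
  set P := bas p m F with hP
  have hPo : IsOpen P := isOpen_bas p g
  have hPc : IsClosed P := isClosed_bas p m F
  let T : ℕ → Y G ≃ₜ Y G := fun j => permHomeo (σ j)
  have hT : ∀ j (x : Y G) n, T j x n = σ j n (x n) := fun j x n => rfl
  -- the dense open sets
  let D : ℕ → Set (Y G) := fun N => (⋃ j ≥ N, (T j) ⁻¹' P) ∪ Pᶜ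
  have hDo : ∀ N, IsOpen (D N) := by
    intro N
    refine IsOpen.union (isOpen_biUnion fun j _ => hPo.preimage (T j).continuous) ?_
    exact hPc.isOpen_compl
  have hDd : ∀ N, Dense (D N) := by
    intro N
    rw [dense_iff_inter_open]
    rintro V hV ⟨v, hv⟩
    by_cases hvP : v ∈ P
    swap
    · exact ⟨v, hv, Or.inr hvP⟩
    obtain ⟨m1, F1, g1, h1, s1⟩ := (isOpen_def.1 hV) v hv
    have hne' : ∀ n, Nonempty (G n) := fun n => ⟨v n⟩
    -- cardinality bound
    obtain ⟨M, hM⟩ := Growing.tends (G := G) (F1.card + F.card)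
    set L := max (max m1 m) M with hL
    have hall : ∀ᶠ j in atTop, ∀ n ∈ Finset.range L, σ j n = Equiv.refl _ := by
      rw [eventually_all_finset]
      exact fun n _ => hσ n
    obtain ⟨j, hj1, hj2⟩ := (hall.and (eventually_ge_atTop N)).exists
    have hav : ∀ n, L ≤ n → ∃ a : G n, a ∉ ((fun z : Y G => z n) '' (F1 : Set (Y G))) ∪
        ((fun z : Y G => (σ j n).symm (z n)) '' (F : Set (Y G))) := by
      intro n hn
      apply exists_avoid
      have e1 := ncard_image_le (f := fun z : Y G => z n) F1.finite_toSet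
      have e2 := ncard_image_le (f := fun z : Y G => (σ j n).symm (z n)) F.finite_toSet
      rw [ncard_coe_finset] at e1 e2
      have e3 := ncard_union_le ((fun z : Y G => z n) '' (F1 : Set (Y G)))
        ((fun z : Y G => (σ j n).symm (z n)) '' (F : Set (Y G)))
      have e4 := hM n ((le_max_right _ _).trans hn)
      omega
    choose! a ha using hav
    let y : Y G := fun n => if L ≤ n then a n else v n
    have hy1 : ∀ n, n < L → y n = v n := fun n hn => by simp [y, not_le.2 hn]
    have hy2 : ∀ n, L ≤ n → y n = a n := fun n hn => by simp [y, hn]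
    have hm1L : m1 ≤ L := (le_max_left _ _).trans (le_max_left _ _)
    have hmL : m ≤ L := (le_max_right _ _).trans (le_max_left _ _)
    refine ⟨y, s1 ⟨fun n hn => hy1 n (lt_of_lt_of_le hn hm1L), fun n hn z hz => ?_⟩, Or.inl ?_⟩
    · rcases lt_or_ge n L with h | h
      · rw [hy1 n h]
        exact h1.2 n hn z hz
      · rw [hy2 n h]
        intro h2
        exact ha n h (Or.inl ⟨z, hz, h2.symm⟩)
    · refine mem_iUnion₂.2 ⟨j, hj2, ?_⟩
      show T j y ∈ P
      have hlow : ∀ n, n < L → T j y n = v n := by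
        intro n hn
        rw [hT, hj1 n (Finset.mem_range.2 hn), hy1 n hn]
        rfl
      refine ⟨fun n hn => ?_, fun n hn z hz => ?_⟩
      · rw [hlow n (lt_of_lt_of_le hn hmL)]
        exact hvP.1 n hn
      · rcases lt_or_ge n L with h | h
        · rw [hlow n h]
          exact hvP.2 n hn z hz
        · rw [hT, hy2 n h]
          intro h2
          refine ha n h (Or.inr ⟨z, hz, ?_⟩)
          show (σ j n).symm (z n) = a n
          rw [← h2]
          exact (σ j n).symm_apply_apply _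
  have hres1 : ∀ᶠ x in residual (Y G), ∀ N, x ∈ D N := by
    rw [eventually_countable_forall]
    exact fun N => residual_of_dense_open (hDo N) (hDd N)
  have hres2 : ∀ᶠ x in residual (Y G), ∀ j, (T j x ∈ B ↔ T j x ∈ u) := by
    rw [eventually_countable_forall]
    exact fun j => (tendsto_residual_of_isOpenMap (T j).continuous (T j).isOpenMap).eventually hB
  obtain ⟨x, hxP, hx1, hx2⟩ :=
    (dense_of_mem_residual (hres1.and hres2)).inter_open_nonempty P hPo (bas_nonempty p g)
  refine ⟨x, ?_⟩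
  rw [infinite_iff_exists_gt]
  intro N
  rcases hx1 (N + 1) with h | h
  · obtain ⟨j, hj, hjP⟩ := mem_iUnion₂.1 h
    exact ⟨j, (hx2 j).2 (hsub hjP), hj⟩
  · exact absurd hxP h

end Pool.Agent.X218.NF
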