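import Mathlib
import Pool.Agent.X218.NF.Core

/-!
# `∏ G_n^*` is not covered by countably many Borel null-finite sets
-/

set_option linter.style.haveILetI false
set_option linter.unusedSectionVars false

open Set Filter Topology

namespace Pool.Agent.X218.NF

variable {G : ℕ → Type} [∀ n, Finite (G n)] [∀ n, TopologicalSpace (G n)]
  [∀ n, DiscreteTopology (G n)]

/-- The identity from the refined to the product topology. -/
def toPi (y : Y G) : ∀ n, G n := y

/-- The refined topology refines the product topology. -/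
theorem continuous_toPi [Growing G] : Continuous (toPi (G := G)) := by
  refine continuous_pi fun n => ?_
  rw [continuous_discrete_rng]
  intro a
  rw [isOpen_def]
  intro y hy
  refine ⟨n + 1, ∅, good_empty _, self_mem_bas (by simp), ?_⟩
  rintro w ⟨h1, -⟩
  show w n = a
  rw [h1 n (Nat.lt_succ_self n)]
  exact hy

theorem no_cover (hG : ∀ K : ℕ, ∃ N, ∀ n, N ≤ n → K < Nat.card (G n))
    (h2 : ∀ n, 1 < Nat.card (G n)) (e : ∀ n, G n) (B : ℕ → Set (∀ n, G n))
    (hB : ∀ k, @MeasurableSet (∀ n, G n) (borel (∀ n, G n)) (B k))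
    (hcov : {x : ∀ n, G n | ∀ n, x n ≠ e n} ⊆ ⋃ k, B k) :
    ∃ k, ∀ σ : ℕ → ∀ n, Equiv.Perm (G n), (∀ n, ∀ᶠ j in atTop, σ j n = Equiv.refl _) →
      ∃ x : ∀ n, G n, {j : ℕ | (fun n => σ j n (x n)) ∈ B k}.Infinite := by
  haveI : Growing G := ⟨hG, fun n => lt_trans Nat.zero_lt_one (h2 n)⟩
  letI : MeasurableSpace (Y G) := borel _
  haveI : BorelSpace (Y G) := ⟨rfl⟩
  letI : MeasurableSpace (∀ n, G n) := borel _
  haveI : BorelSpace (∀ n, G n) := ⟨rfl⟩
  have hBm : ∀ k, MeasurableSet (toPi ⁻¹' (B k)) := fun k =>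
    (continuous_toPi (G := G)).measurable (hB k)
  have hu : ∀ k, ∃ u : Set (Y G), IsOpen u ∧
      ∀ᶠ x in residual (Y G), (x ∈ (toPi ⁻¹' (B k)) ↔ x ∈ u) := by
    intro k
    obtain ⟨u, hu1, hu2⟩ := MeasurableSet.residualEq_isOpen (hBm k)
    refine ⟨u, hu1, ?_⟩
    filter_upwards [hu2] with x hx
    exact iff_of_eq hx
  choose u hu1 hu2 using hu
  have hA : good 0 ({e} : Finset (Y G)) := by
    intro n _
    have hc : ({e} : Finset (Y G)).card = 1 := Finset.card_singleton _
    rw [hc]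
    exact h2 n
  obtain ⟨k, hk⟩ : ∃ k, (u k).Nonempty := by
    by_contra hcon
    push Not at hcon
    have hres : ∀ᶠ x in residual (Y G), ∀ k, x ∉ (toPi ⁻¹' (B k)) := by
      rw [eventually_countable_forall]
      intro k
      filter_upwards [hu2 k] with x hx h
      have := hx.1 h
      rw [hcon k] at this
      exact this
    obtain ⟨x, hx1, hx2⟩ := (dense_of_mem_residual hres).inter_open_nonempty _
      (isOpen_bas e hA) (bas_nonempty e hA)
    have hxA : x ∈ {x : ∀ n, G n | ∀ n, x n ≠ e n} := fun n =>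
      hx1.2 n (Nat.zero_le _) e (Finset.mem_singleton_self _)
    obtain ⟨k, hk⟩ := mem_iUnion.1 (hcov hxA)
    exact hx2 k hk
  refine ⟨k, fun σ hσ => ?_⟩
  exact main (hu1 k) hk (hu2 k) σ hσ

end Pool.Agent.X218.NF
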