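import Mathlib
import Pool.Agent.X218.NF.Cover

/-!
# The group `∏ ZMod (n + 2)`
-/

set_option linter.style.haveILetI false

open Set Filter Topology MeasureTheory

namespace Pool.Agent.X218.NF

/-- The compact group `∏_{n ≥ 2} ℤ/n`. -/
abbrev Z : Type := ∀ n : ℕ, ZMod (n + 2)

/-- The set of points differing from `x` in all coordinates. -/
def dif (x : Z) : Set Z := {y | ∀ n, y n ≠ x n}

theorem isClosed_dif (x : Z) : IsClosed (dif x) := by
  have : dif x = ⋂ n, (fun y : Z => y n) ⁻¹' ({x n}ᶜ) := by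
    ext y; simp [dif]
  rw [this]
  exact isClosed_iInter fun n => (isClosed_discrete _).preimage (continuous_apply n)

theorem interior_dif (x : Z) : interior (dif x) = ∅ := by
  rw [eq_empty_iff_forall_notMem]
  intro y hy
  -- points agreeing with `y` below `k` and with `x` from `k` on converge to `y`
  let z : ℕ → Z := fun k n => if n < k then y n else x n
  have hz : Tendsto z atTop (𝓝 y) := by
    rw [tendsto_pi_nhds]
    intro n
    refine tendsto_nhds_of_eventually_eq ?_
    filter_upwards [eventually_gt_atTop n] with k hk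
    simp [z, hk]
  obtain ⟨k, hk⟩ := (hz.eventually (mem_interior_iff_mem_nhds.1 hy)).exists
  have h1 : z k ∈ dif x := hk
  exact h1 k (by simp [z])

theorem isMeagre_dif (x : Z) : IsMeagre (dif x) := by
  have h1 : IsNowhereDense (dif x) := by
    rw [(isClosed_dif x).isNowhereDense_iff]
    exact interior_dif x
  exact h1.isMeagre

theorem prod_ratio (N : ℕ) :
    ∏ n ∈ Finset.range N, (((n + 1 : ℕ) : ENNReal) / ((n + 2 : ℕ) : ENNReal)) =
      ((N + 1 : ℕ) : ENNReal)⁻¹ := by
  induction N with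
  | zero => simp
  | succ N ih =>
    rw [Finset.prod_range_succ, ih, ENNReal.div_eq_inv_mul, mul_comm, mul_assoc,
      ENNReal.mul_inv_cancel (by simp) (ENNReal.natCast_ne_top _), mul_one]

theorem exists_measure : ∃ μ : Measure Z, IsProbabilityMeasure μ ∧ ∀ x, μ (dif x) = 0 := by
  classical
  let μ : ∀ n : ℕ, Measure (ZMod (n + 2)) := fun n =>
    (PMF.uniformOfFintype (ZMod (n + 2))).toMeasure
  have hμ : ∀ n, IsProbabilityMeasure (μ n) := fun n => inferInstance
  refine ⟨Measure.infinitePi μ, inferInstance, fun x => ?_⟩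
  have h1 : ∀ N : ℕ, Measure.infinitePi μ (dif x) ≤ ((N + 1 : ℕ) : ENNReal)⁻¹ := by
    intro N
    have hsub : dif x ⊆ (Finset.range N : Set ℕ).pi (fun n => ({x n}ᶜ : Set (ZMod (n + 2)))) :=
      fun y hy n _ => hy n
    refine (measure_mono hsub).trans ?_
    rw [Measure.infinitePi_pi μ (fun n _ => MeasurableSet.of_discrete), ← prod_ratio N]
    refine Finset.prod_le_prod' fun n _ => ?_
    show (PMF.uniformOfFintype (ZMod (n + 2))).toMeasure ({x n}ᶜ) ≤ _
    rw [PMF.toMeasure_uniformOfFintype_apply _ MeasurableSet.of_discrete]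
    have h2 : Fintype.card (({x n}ᶜ : Set (ZMod (n + 2)))) = n + 1 := by
      rw [Fintype.card_compl_set]
      simp [ZMod.card]
    rw [h2, ZMod.card]
  have h2 : Tendsto (fun N : ℕ => ((N + 1 : ℕ) : ENNReal)⁻¹) atTop (𝓝 0) := by
    have h3 := ENNReal.tendsto_inv_nat_nhds_zero
    exact (tendsto_add_atTop_iff_nat 1).2 h3
  exact le_antisymm (ge_of_tendsto' h2 h1) zero_le

/-- No countable cover of `∏ (ℤ/n)^*` by Borel null-finite sets. -/
theorem no_cover_Z (B : ℕ → Set Z) (hB : ∀ k, MeasurableSet (B k))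
    (hnf : ∀ k, ∃ a : ℕ → Z, Tendsto a atTop (𝓝 0) ∧ ∀ x : Z, {j : ℕ | x + a j ∈ B k}.Finite) :
    ¬ dif 0 ⊆ ⋃ k, B k := by
  intro hcov
  have hcard : ∀ n, Nat.card (ZMod (n + 2)) = n + 2 := fun n => Nat.card_zmod _
  have hB' : ∀ k, @MeasurableSet Z (borel Z) (B k) := by
    intro k
    have := hB k
    rwa [BorelSpace.measurable_eq (α := Z)] at this
  obtain ⟨k, hk⟩ := no_cover (G := fun n => ZMod (n + 2))
    (fun K => ⟨K, fun n hn => by rw [hcard]; omega⟩) (fun n => by rw [hcard]; omega)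
    (fun n => 0) B hB' hcov
  obtain ⟨a, ha, hfin⟩ := hnf k
  obtain ⟨x, hx⟩ := hk (fun j n => Equiv.addRight (a j n)) (by
    intro n
    have h1 := (tendsto_pi_nhds.1 ha) n
    have h2 : (0 : Z) n = 0 := rfl
    rw [h2, nhds_discrete, tendsto_pure] at h1
    filter_upwards [h1] with j hj
    ext z
    simp [hj])
  exact hx (hfin x)

end Pool.Agent.X218.NF
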